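import Mathlib

/-!
# Polynomial density does not imply equality of the eigenvalue sets

Let `D = ℚ[t]` and `A = D[Y] / (Y² - t³)`, so that `B = K(√t)` and `Y = t √t`.  Then
`Int_K(A, A') = D[X] = Int_K(A')`, since `D` contains an infinite field, while `√t` is an
eigenvalue of `Y / t ∈ A'` but not of any element of `A`.
-/

set_option autoImplicit false

namespace Pool.Agent.Results.MP_efce82_al.DenseNotEigen

open Polynomial TensorProduct

section definitions

variable (D : Type) [CommRing D] [IsDomain D] (A : Type) [Ring A] [Algebra D A]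

/-- The `K`-algebra `B = K ⊗ A`, where `K` is the fraction field of `D`. -/
abbrev BB : Type := FractionRing D ⊗[D] A

/-- The image of `A` in `B`. -/
def imageOf : Set (BB D A) := Set.range fun a : A => (1 : FractionRing D) ⊗ₜ[D] a

/-- The set `A'` of the elements of `B` which are integral over `D`. -/
def integralElements : Set (BB D A) := {b | IsIntegral D b}

/-- `Int_K(S, A')`: the polynomials over `K` which map `S ⊆ B` to `A'`. -/
def IntK (S : Set (BB D A)) : Set (FractionRing D)[X] :=
  {f | ∀ b ∈ S, aeval b f ∈ integralElements D A}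

/-- `A` is polynomially dense in `A'`: `Int_K(A, A') = Int_K(A')`. -/
def PolynomiallyDense : Prop := IntK D A (imageOf D A) = IntK D A (integralElements D A)

/-- `Ω_S`: the roots, in the algebraic closure of `K`, of the minimal polynomials over `K` of the
elements of `S ⊆ B`. -/
def Omega (S : Set (BB D A)) : Set (AlgebraicClosure (FractionRing D)) :=
  {α | ∃ b ∈ S, aeval α (minpoly (FractionRing D) b) = 0}

end definitions

/-- `D = ℚ[t]`. -/
abbrev DD : Type := ℚ[X]

/-- `K = ℚ(t)`. -/
abbrev KK : Type := FractionRing DD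

/-- `A = D[Y] / (Y² - t³)`. -/
abbrev AA : Type := QuadraticAlgebra DD (X ^ 3) 0

/-- The image of `t` in `K`. -/
noncomputable def tK : KK := algebraMap DD KK X

theorem tK_not_sq (z : KK) : z ^ 2 ≠ tK := by
  intro hz
  have hint : IsIntegral DD z := by
    refine ⟨X ^ 2 - C X, monic_X_pow_sub_C _ two_ne_zero, ?_⟩
    simp only [eval₂_sub, eval₂_pow, eval₂_X, eval₂_C, hz, tK, sub_self]
  obtain ⟨w, hw⟩ := IsIntegrallyClosed.isIntegral_iff.1 hint
  have h1 : w ^ 2 = X := by
    apply IsFractionRing.injective DD KK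
    rw [map_pow, hw, hz, tK]
  have h2 := congrArg natDegree h1
  rw [natDegree_pow, natDegree_X] at h2
  omega

/-- Interpolation: a polynomial over `K` with values in `D` at all rational constants has
coefficients in `D`. -/
theorem mem_lifts (f : KK[X]) (h : ∀ q : ℚ, ∃ d : DD, f.eval (algebraMap ℚ KK q) = algebraMap DD KK d) :
    f ∈ Polynomial.lifts (algebraMap DD KK) := by
  classical
  set v : ℕ → KK := fun i => algebraMap ℚ KK i with hv
  have hinj : Function.Injective v := fun i j hij =>
    Nat.cast_injective (R := ℚ) ((algebraMap ℚ KK).injective hij)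
  set s : Finset ℕ := Finset.range (f.natDegree + 1) with hs
  have hdeg : f.degree < s.card := by
    rw [hs, Finset.card_range]
    exact lt_of_le_of_lt degree_le_natDegree (by exact_mod_cast Nat.lt_succ_self _)
  rw [Lagrange.eq_interpolate (hinj.injOn) hdeg]
  have hq : ∀ q : ℚ, C (algebraMap ℚ KK q) ∈ Polynomial.lifts (algebraMap DD KK) := by
    intro q
    rw [IsScalarTower.algebraMap_apply ℚ DD KK]
    exact Polynomial.C_mem_lifts _ _
  have hX : (X : KK[X]) ∈ Polynomial.lifts (algebraMap DD KK) := Polynomial.X_mem_lifts _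
  simp only [Lagrange.interpolate_apply]
  refine Subsemiring.sum_mem _ fun i _ => Subsemiring.mul_mem _ ?_ ?_
  · obtain ⟨d, hd⟩ := h i
    rw [hv]
    simp only
    rw [hd]
    exact Polynomial.C_mem_lifts _ _
  · rw [Lagrange.basis]
    refine Subsemiring.prod_mem _ fun j _ => ?_
    rw [Lagrange.basisDivisor]
    have e1 : (v i - v j)⁻¹ = algebraMap ℚ KK ((i - j : ℚ)⁻¹) := by
      rw [map_inv₀, map_sub]
    have e2 : X - C (v j) = X + C (algebraMap ℚ KK (-(j : ℚ))) := by
      rw [map_neg, map_neg, sub_eq_add_neg]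
    rw [e1, e2]
    exact Subsemiring.mul_mem _ (hq _) (Subsemiring.add_mem _ hX (hq _))

instance : Nontrivial (BB DD AA) := by
  have h : Module.finrank KK (BB DD AA) = 2 := by
    rw [Module.finrank_baseChange, QuadraticAlgebra.finrank_eq_two]
  exact Module.nontrivial_of_finrank_pos (R := KK) (by rw [h]; norm_num)

/-- The element `√t = Y / t` of `B`. -/
noncomputable def rt : BB DD AA := tK⁻¹ ⊗ₜ[DD] QuadraticAlgebra.omega

theorem tK_ne : tK ≠ 0 := by
  intro h
  exact tK_not_sq 0 (by rw [h]; simp)

theorem rt_sq : rt ^ 2 = algebraMap KK (BB DD AA) tK := by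
  have h1 : (QuadraticAlgebra.omega : AA) ^ 2 = (X ^ 3 : DD) • (1 : AA) := by
    rw [sq, QuadraticAlgebra.omega_mul_omega_eq_mk, ← Algebra.algebraMap_eq_smul_one,
      QuadraticAlgebra.algebraMap_eq]
  rw [rt, Algebra.TensorProduct.tmul_pow, h1, TensorProduct.tmul_smul, TensorProduct.smul_tmul',
    Algebra.TensorProduct.algebraMap_apply]
  congr 1
  rw [Algebra.smul_def, map_pow]
  change tK ^ 3 * tK⁻¹ ^ 2 = tK
  have := tK_ne
  field_simp

theorem minpoly_rt : minpoly KK rt = X ^ 2 - C tK := by
  have hirr : Irreducible (X ^ 2 - C tK : KK[X]) := by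
    refine (Polynomial.irreducible_of_degree_le_three_of_not_isRoot ?_ ?_)
    · rw [natDegree_X_pow_sub_C]; decide
    · intro z hz
      rw [IsRoot, eval_sub, eval_pow, eval_X, eval_C] at hz
      exact tK_not_sq z (sub_eq_zero.1 hz)
  refine (minpoly.eq_of_irreducible_of_monic hirr ?_ (monic_X_pow_sub_C _ two_ne_zero)).symm
  simp [rt_sq]

theorem dense : PolynomiallyDense DD AA := by
  unfold PolynomiallyDense
  have hone : ∀ f ∈ IntK DD AA (imageOf DD AA), f ∈ Polynomial.lifts (algebraMap DD KK) := by
    intro f hf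
    refine mem_lifts f fun q => ?_
    have h1 := hf (1 ⊗ₜ[DD] (algebraMap DD AA (algebraMap ℚ DD q))) ⟨_, rfl⟩
    have h2 : (1 : KK) ⊗ₜ[DD] (algebraMap DD AA (algebraMap ℚ DD q))
        = algebraMap KK (BB DD AA) (algebraMap ℚ KK q) := by
      rw [Algebra.algebraMap_eq_smul_one, TensorProduct.tmul_smul, TensorProduct.smul_tmul',
        Algebra.TensorProduct.algebraMap_apply, Algebra.smul_def, mul_one,
        ← IsScalarTower.algebraMap_apply ℚ DD KK]
      rfl
    rw [h2, aeval_algebraMap_apply] at h1
    have h3 : IsIntegral DD (aeval (algebraMap ℚ KK q) f) := by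
      refine (isIntegral_algebraMap_iff (B := BB DD AA) ?_).1 h1
      exact (algebraMap KK (BB DD AA)).injective
    obtain ⟨d, hd⟩ := IsIntegrallyClosed.isIntegral_iff.1 h3
    exact ⟨d, by rw [hd, coe_aeval_eq_eval]⟩
  have htwo : ∀ f ∈ Polynomial.lifts (algebraMap DD KK), ∀ S ⊆ integralElements DD AA,
      f ∈ IntK DD AA S := by
    intro f hf S hS b hb
    obtain ⟨g, hg⟩ := (Polynomial.mem_lifts _).1 hf
    have hb' : IsIntegral DD b := hS hb
    change IsIntegral DD (aeval b f)
    rw [← hg, aeval_map_algebraMap]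
    exact .of_mem_of_fg _ hb'.fg_adjoin_singleton _ (aeval_mem_adjoin_singleton _ _)
  ext f
  constructor
  · intro hf
    exact htwo f (hone f hf) _ subset_rfl
  · intro hf b hb
    apply hf
    obtain ⟨a, rfl⟩ := hb
    have ha : IsIntegral DD a := Algebra.IsIntegral.isIntegral a
    exact ha.map (Algebra.TensorProduct.includeRight : AA →ₐ[DD] BB DD AA)

theorem isIntegral_rt : IsIntegral DD rt := by
  refine ⟨X ^ 2 - C X, monic_X_pow_sub_C _ two_ne_zero, ?_⟩
  rw [eval₂_sub, eval₂_pow, eval₂_X, eval₂_C, rt_sq, tK, ← IsScalarTower.algebraMap_apply,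
    sub_self]

theorem exists_eigenvalue : ∃ α ∈ Omega DD AA (integralElements DD AA),
    α ∉ Omega DD AA (imageOf DD AA) := by
  obtain ⟨α, hα⟩ := IsAlgClosed.exists_pow_nat_eq (algebraMap KK (AlgebraicClosure KK) tK)
    (n := 2) two_pos
  refine ⟨α, ⟨rt, isIntegral_rt, ?_⟩, ?_⟩
  · rw [minpoly_rt]
    simp [hα]
  · rintro ⟨b, ⟨a, rfl⟩, hroot⟩
    set ι : AA →ₐ[DD] BB DD AA := Algebra.TensorProduct.includeRight with hι
    set p : DD := a.re with hp
    set q : DD := a.im with hq
    have h1 : (a - algebraMap DD AA p) ^ 2 = algebraMap DD AA (q ^ 2 * X ^ 3) := by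
      rw [sq, QuadraticAlgebra.algebraMap_eq, QuadraticAlgebra.algebraMap_eq]
      apply QuadraticAlgebra.ext
      · simp [hp, hq]; ring
      · simp [hp]
    have h2 : (ι a - algebraMap DD (BB DD AA) p) ^ 2 = algebraMap DD (BB DD AA) (q ^ 2 * X ^ 3) := by
      have := congrArg ι h1
      rwa [map_pow, map_sub, AlgHom.commutes, AlgHom.commutes] at this
    set P : KK[X] := (X - C (algebraMap DD KK p)) ^ 2 - C (algebraMap DD KK (q ^ 2 * X ^ 3)) with hP
    have h3 : aeval (ι a) P = 0 := by
      rw [hP, map_sub, map_pow, map_sub, aeval_X, aeval_C, aeval_C,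
        ← IsScalarTower.algebraMap_apply, ← IsScalarTower.algebraMap_apply, h2, sub_self]
    obtain ⟨Q, hQ⟩ := minpoly.dvd KK (ι a) h3
    have h4 : aeval α P = 0 := by
      rw [hQ, map_mul]
      have hroot' : aeval α (minpoly KK (ι a)) = 0 := hroot
      rw [hroot', zero_mul]
    have hinj : Function.Injective (algebraMap KK (AlgebraicClosure KK)) :=
      (algebraMap KK (AlgebraicClosure KK)).injective
    have hinj2 : Function.Injective (algebraMap DD KK) := IsFractionRing.injective DD KK
    rw [hP, map_sub, map_pow, map_sub, aeval_X, aeval_C, aeval_C] at h4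
    by_cases hp0 : p = 0
    · rw [hp0, map_zero, map_zero, sub_zero, hα, ← map_sub, tK, ← map_sub] at h4
      have h5 : (X : DD) - q ^ 2 * X ^ 3 = 0 := by
        apply hinj2
        apply hinj
        rw [h4, map_zero, map_zero]
      have h6 : (X : DD) = q ^ 2 * X ^ 3 := sub_eq_zero.1 h5
      have hq0 : q ≠ 0 := by
        intro h
        rw [h] at h6
        simp at h6
      have h7 := congrArg natDegree h6
      rw [natDegree_mul (pow_ne_zero _ hq0) (pow_ne_zero _ X_ne_zero), natDegree_X, natDegree_X_pow]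
        at h7
      omega
    · set pk : KK := algebraMap DD KK p with hpk
      have hpk0 : pk ≠ 0 := fun h => hp0 (hinj2 (by rw [map_zero, ← hpk, h]))
      set r : KK := algebraMap DD KK (q ^ 2 * X ^ 3) with hr
      have h5 : α = algebraMap KK (AlgebraicClosure KK) ((tK + pk ^ 2 - r) / (2 * pk)) := by
        rw [map_div₀, map_sub, map_add, map_mul, map_pow, ← hα]
        have h2' : (algebraMap KK (AlgebraicClosure KK)) 2 = 2 := map_ofNat _ 2
        have h6 : algebraMap KK (AlgebraicClosure KK) pk ≠ 0 := by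
          rw [Ne, map_eq_zero]; exact hpk0
        rw [h2']
        field_simp
        linear_combination -h4
      apply tK_not_sq ((tK + pk ^ 2 - r) / (2 * pk))
      apply hinj
      rw [map_pow, ← h5, hα]

/-- **Negative answer to Q1.** -/
theorem result : ∃ (D : Type) (_ : CommRing D) (_ : IsDomain D) (A : Type) (_ : Ring A)
    (_ : Algebra D A), IsIntegrallyClosed D ∧ Function.Injective (algebraMap D A) ∧
      Module.IsTorsionFree D A ∧ Module.Finite D A ∧ PolynomiallyDense D A ∧
        ∃ α ∈ Omega D A (integralElements D A), α ∉ Omega D A (imageOf D A) :=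
  ⟨DD, inferInstance, inferInstance, AA, inferInstance, inferInstance, inferInstance,
    QuadraticAlgebra.algebraMap_injective, inferInstance, inferInstance, dense, exists_eigenvalue⟩

end Pool.Agent.Results.MP_efce82_al.DenseNotEigen
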